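import Pool.Agent.COSB.StmtsB

/-!
# Squad COSB, row MNG (helper49): the subgroup of the monomial matrices
-/

set_option autoImplicit false

namespace Pool.Agent.COSB.H49

open Pool.Agent.COSB

variable {F : Type} [Field F] {n : ℕ}

/-- the monomial matrix of `(π, ζ)` -/
def mm (π : Equiv.Perm (Fin n)) (ζ : Fin n → Fˣ) : Matrix (Fin n) (Fin n) F :=
  Matrix.of fun i j => if i = π j then (ζ j : F) else 0

theorem mm_apply (π : Equiv.Perm (Fin n)) (ζ : Fin n → Fˣ) (i j : Fin n) :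
    mm π ζ i j = if i = π j then (ζ j : F) else 0 := rfl

theorem mm_mul (π π' : Equiv.Perm (Fin n)) (ζ ζ' : Fin n → Fˣ) :
    mm π ζ * mm π' ζ' = mm (π * π') (fun j => ζ (π' j) * ζ' j) := by
  ext i k
  rw [Matrix.mul_apply, Finset.sum_eq_single (π' k)]
  · rw [mm_apply, mm_apply, mm_apply, if_pos rfl, Equiv.Perm.mul_apply]
    by_cases h : i = π (π' k)
    · rw [if_pos h, if_pos h, Units.val_mul]
    · rw [if_neg h, if_neg h, zero_mul]
  · intro j _ hj
    rw [mm_apply π' ζ' j k, if_neg hj, mul_zero]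
  · intro h
    exact absurd (Finset.mem_univ _) h

theorem mm_one (ζ : Fin n → Fˣ) (h : ∀ j, ζ j = 1) : mm (1 : Equiv.Perm (Fin n)) ζ = 1 := by
  ext i j
  rw [mm_apply, h j, Equiv.Perm.one_apply, Units.val_one, Matrix.one_apply]

theorem mm_inv (π : Equiv.Perm (Fin n)) (ζ : Fin n → Fˣ) :
    mm π ζ * mm π⁻¹ (fun j => (ζ (π⁻¹ j))⁻¹) = 1 := by
  rw [mm_mul, mul_inv_cancel]
  exact mm_one _ (fun j => mul_inv_cancel _)

theorem mm_inv' (π : Equiv.Perm (Fin n)) (ζ : Fin n → Fˣ) :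
    mm π⁻¹ (fun j => (ζ (π⁻¹ j))⁻¹) * mm π ζ = 1 := by
  rw [mm_mul, inv_mul_cancel]
  refine mm_one _ (fun j => ?_)
  have h : π⁻¹ (π j) = j := π.symm_apply_apply j
  rw [h]
  exact inv_mul_cancel _

theorem mm_inj {π π' : Equiv.Perm (Fin n)} {ζ ζ' : Fin n → Fˣ} (h : mm π ζ = mm π' ζ') :
    π = π' ∧ ζ = ζ' := by
  have key : ∀ j, π j = π' j ∧ ζ j = ζ' j := by
    intro j
    have h1 := congrFun (congrFun h (π j)) j
    rw [mm_apply, mm_apply, if_pos rfl] at h1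
    by_cases h2 : π j = π' j
    · rw [if_pos h2] at h1
      exact ⟨h2, Units.ext h1⟩
    · rw [if_neg h2] at h1
      exact absurd h1 (Units.ne_zero _)
  exact ⟨Equiv.ext fun j => (key j).1, funext fun j => (key j).2⟩

theorem isMon_iff (M : Matrix (Fin n) (Fin n) F) : IsMon M ↔ ∃ π ζ, M = mm π ζ := by
  constructor
  · rintro ⟨π, ζ, h⟩
    exact ⟨π, ζ, by ext i j; exact h i j⟩
  · rintro ⟨π, ζ, rfl⟩
    exact ⟨π, ζ, fun i j => rfl⟩

/-- the invertible matrix of `(π, ζ)` -/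
def gg (x : Equiv.Perm (Fin n) × (Fin n → Fˣ)) : Matrix.GeneralLinearGroup (Fin n) F :=
  ⟨mm x.1 x.2, mm x.1⁻¹ (fun j => (x.2 (x.1⁻¹ j))⁻¹), mm_inv _ _, mm_inv' _ _⟩

/-- **MNG** -/
theorem mng : MngStmt := by
  intro F _ _ _ n
  let U : Subgroup (Matrix.GeneralLinearGroup (Fin n) F) :=
    { carrier := {u | IsMon u.1}
      mul_mem' := by
        intro a b ha hb
        obtain ⟨π, ζ, h⟩ := (isMon_iff _).1 ha
        obtain ⟨π', ζ', h'⟩ := (isMon_iff _).1 hb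
        refine (isMon_iff _).2 ⟨π * π', fun j => ζ (π' j) * ζ' j, ?_⟩
        rw [Units.val_mul, h, h', mm_mul]
      one_mem' := (isMon_iff _).2 ⟨1, fun _ => 1, (mm_one _ (fun _ => rfl)).symm⟩
      inv_mem' := by
        intro a ha
        obtain ⟨π, ζ, h⟩ := (isMon_iff _).1 ha
        refine (isMon_iff _).2 ⟨π⁻¹, fun j => (ζ (π⁻¹ j))⁻¹, ?_⟩
        have h1 : a = gg (π, ζ) := Units.ext h
        rw [h1]
        rfl }
  have hU : ∀ u, u ∈ U ↔ IsMon u.1 := fun u => Iff.rfl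
  refine ⟨U, hU, ?_⟩
  have hg : ∀ x, gg x ∈ U := fun x => (isMon_iff _).2 ⟨x.1, x.2, rfl⟩
  have hb : Function.Bijective (fun x : Equiv.Perm (Fin n) × (Fin n → Fˣ) =>
      (⟨gg x, hg x⟩ : U)) := by
    constructor
    · intro x y h
      have h1 : gg x = gg y := congrArg Subtype.val h
      have h2 : mm x.1 x.2 = mm y.1 y.2 := congrArg Units.val h1
      obtain ⟨h3, h4⟩ := mm_inj h2
      exact Prod.ext h3 h4
    · rintro ⟨u, hu⟩
      obtain ⟨π, ζ, h⟩ := (isMon_iff _).1 ((hU u).1 hu)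
      exact ⟨(π, ζ), Subtype.ext (Units.ext h.symm)⟩
  rw [← Nat.card_congr (Equiv.ofBijective _ hb), Nat.card_eq_fintype_card, Fintype.card_prod,
    Fintype.card_perm, Fintype.card_fun, Fintype.card_units, Fintype.card_fin]

end Pool.Agent.COSB.H49
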