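import Pool.Agent.COSB.StmtsA

/-!
# Squad COSB, row RDK (helper49): reduction modulo two and lifts
-/

set_option autoImplicit false

namespace Pool.Agent.COSB.H49R

open Turing Computability Pool.Agent.UT.Num Pool.Agent.H2XG Pool.Agent.PAR Pool.Agent.COS
open Pool.Agent.COSB

/-- **RDK** -/
theorem rdk : RdkStmt := by
  intro n k hk
  obtain ⟨φ, hφ⟩ : ∃ φ : ZMod (2 ^ k) →+* ZMod 2, ∀ z, ((z.val : ℕ) : ZMod 2) = φ z := by
    refine ⟨ZMod.castHom (dvd_pow_self 2 (by omega)) (ZMod 2), fun z => ?_⟩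
    rw [ZMod.natCast_val, ZMod.castHom_apply]
  have hrd : ∀ A : Matrix (Fin n) (Fin n) (ZMod (2 ^ k)), rd A = A.map φ := by
    intro A
    ext i j
    exact hφ (A i j)
  have hup : ∀ a : Matrix (Fin n) (Fin n) (ZMod 2), rd (up k a) = a := by
    intro a
    rw [hrd]
    ext i j
    show φ (((a i j).val : ℕ) : ZMod (2 ^ k)) = a i j
    rw [map_natCast, ZMod.natCast_zmod_val]
  have hunit : ∀ z : ZMod (2 ^ k), φ z ≠ 0 → IsUnit z := by
    intro z hz
    have h1 : IsUnit ((z.val : ℕ) : ZMod (2 ^ k)) := by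
      rw [ZMod.isUnit_iff_coprime]
      apply Nat.Coprime.pow_right
      rw [Nat.coprime_comm, (Nat.prime_two).coprime_iff_not_dvd]
      intro h2
      apply hz
      rw [← hφ z]
      exact (ZMod.natCast_eq_zero_iff _ _).2 h2
    rw [ZMod.natCast_zmod_val] at h1
    exact h1
  have hinv : ∀ B : Matrix (Fin n) (Fin n) (ZMod (2 ^ k)), (rd B).det ≠ 0 →
      ∃ u : G2 n k, u.1 = B := by
    intro B hB
    have h1 : φ B.det ≠ 0 := by
      rw [RingHom.map_det]
      rw [hrd] at hB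
      exact hB
    exact ⟨Matrix.nonsingInvUnit B (hunit _ h1), rfl⟩
  refine ⟨fun A B => ?_, ?_, hup, ⟨Matrix.GeneralLinearGroup.map φ, fun A => ?_⟩, fun a => ?_,
    fun B hB => ?_⟩
  · rw [hrd, hrd, hrd, Matrix.map_mul]
  · rw [hrd]
    exact Matrix.map_one φ (map_zero φ) (map_one φ)
  · rw [hrd]
    rfl
  · apply hinv
    rw [hup]
    have h1 : IsUnit a.1.det := (Matrix.isUnit_iff_isUnit_det _).1 a.isUnit
    exact h1.ne_zero
  · apply hinv
    have hdet : (rd B).det = 1 := by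
      rw [Matrix.det_of_upperTriangular (fun i j hij => hB.2 i j hij)]
      exact Finset.prod_eq_one fun i _ => hB.1 i
    rw [hdet]
    exact one_ne_zero

end Pool.Agent.COSB.H49R
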